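import Mathlib
import Pool.Agent.H23.MU3

set_option autoImplicit false

namespace Pool.Agent.Results.MP_501377_al.Universal

/-- A separable group with left-invariant metric: the metric is left-invariant, it induces a
group topology, and the metric space is separable. -/
def IsSepLIGroup (G : Type) [Group G] [MetricSpace G] : Prop :=
  (∀ g x y : G, dist (g * x) (g * y) = dist x y) ∧ IsTopologicalGroup G ∧
    TopologicalSpace.SeparableSpace G

/-- Shkarin's question: there is a metrically universal separable group with left-invariant
metric. -/
theorem result :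
    ∃ (G : Type) (_ : Group G) (_ : MetricSpace G), IsSepLIGroup G ∧
      ∀ (H : Type) [Group H] [MetricSpace H], IsSepLIGroup H →
        ∃ φ : H →* G, Function.Injective φ ∧ ∀ x y : H, dist (φ x) (φ y) = dist x y := by
  refine ⟨Pool.Agent.H23.MU1.G, inferInstance, inferInstance,
    ⟨Pool.Agent.H23.MU1.left_inv, inferInstance, inferInstance⟩, ?_⟩
  intro H _ _ hH
  haveI := hH.2.1
  haveI := hH.2.2
  obtain ⟨φ, hφ⟩ := Pool.Agent.H23.MU1.embed H hH.1
  exact ⟨φ, (Isometry.of_dist_eq hφ).injective, hφ⟩

end Pool.Agent.Results.MP_501377_al.Universal
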